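import Pool.Agent.N437.QR.Stm

/-!
# Project QR, leaf WT: product weights on finite sets
-/

set_option autoImplicit false

namespace Pool.Agent.N881.QR

open Finset Pool.Agent.N437.QR

lemma sum_prod {α : Type} [Fintype α] [DecidableEq α] (f g : α → ℝ) :
    ∑ S : Finset α, (∏ e ∈ S, f e) * ∏ e ∈ Sᶜ, g e = ∏ e, (f e + g e) := by
  rw [Finset.prod_add, Finset.powerset_univ]
  exact Finset.sum_congr rfl fun S _ => by rw [Finset.compl_eq_univ_sdiff]

theorem t_WT : S_WT := by
  intro α _ _ q
  refine ⟨?_, ?_, ?_⟩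
  · simp only [Wt]
    rw [sum_prod]
    exact Finset.prod_eq_one fun e _ => by ring
  · intro T
    have h := sum_prod q (fun e => if e ∈ T then 0 else 1 - q e)
    have hL : ∀ S : Finset α, (if T ⊆ S then Wt q S else 0) =
        (∏ e ∈ S, q e) * ∏ e ∈ Sᶜ, (if e ∈ T then (0 : ℝ) else 1 - q e) := by
      intro S
      split_ifs with hTS
      · simp only [Wt]
        congr 1
        refine Finset.prod_congr rfl fun e he => ?_
        rw [if_neg fun heT => (Finset.mem_compl.mp he) (hTS heT)]
      · obtain ⟨e, heT, heS⟩ := Finset.not_subset.mp hTS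
        rw [Finset.prod_eq_zero (i := e) (Finset.mem_compl.mpr heS) (by rw [if_pos heT]), mul_zero]
    rw [Finset.sum_congr rfl fun S _ => hL S, h]
    have e1 : ∀ e : α, q e + (if e ∈ T then (0 : ℝ) else 1 - q e) = if e ∈ T then q e else 1 := by
      intro e
      split_ifs <;> ring
    rw [Finset.prod_congr rfl fun e _ => e1 e]
    rw [Finset.prod_ite_mem, Finset.univ_inter]
  · intro hq S
    exact mul_nonneg (Finset.prod_nonneg fun e _ => (hq e).1)
      (Finset.prod_nonneg fun e _ => sub_nonneg.mpr (hq e).2)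

end Pool.Agent.N881.QR
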